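import Pool.Agent.helper40.BZ.Defs
import Pool.Agent.helper40.BZ.Final

/-!
# Type-112 tilings of the `(3n+1, 3n+1)`-benzel

`T n` (the number of these tilings) is an explicit product.

Proof idea.
1. A weight on the cells shows that every tile of a tiling is the union of a single cell and a
   forced domino; contracting the dominoes, the tilings are the perfect matchings of a strip graph
   with `4n+1` columns (`T_eq_tau`).
2. Peeling the strip column by column (with alternating multilinear functions of the vectors of
   coefficients) gives `T n = det [β^j] 𝒯^n ω^i`, `1 ≤ i, j ≤ n`, where `ω = β(1+β)/(1-β)` and `𝒯`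
   is multiplication by `(1+β)/(β(1-β))` followed by dropping the constant term (`T_eq_det`).
3. Adding the conjugate `ω(-β)` (whose powers are killed by `𝒯^n`) the determinant becomes a
   `2n × 2n` determinant, triangular in a basis of polynomials in `ω` and `ω(-β)` whose parity parts
   are `₃F₂` series in `r²`, `r = 4β(1-β²)/(1+β²)²`; their leading coefficients satisfy two
   contiguity relations (`det_formula`).
-/

namespace Pool.Agent.Results.MP_f6b435_co.ProductFormula

open Pool.BZ

/-- Closed form for the number `T n` of type-112 tilings of the `(3n+1, 3n+1)`-benzel, the ratio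
`T n * T (n+2) / T (n+1) ^ 2`, and the first two values. -/
theorem result :
    (∀ n : ℕ, (T n : ℚ) = ∏ k ∈ Finset.range n,
      (6 * 4 ^ (k + 1) * (2 * k + 1) * (k + 1) * (k + 1).factorial *
        (4 * k + 1).factorial * (4 * k + 3).factorial /
        ((3 * k + 1).factorial * ((3 * k + 3).factorial) ^ 2) : ℚ)) ∧
    (∀ n : ℕ, (T n : ℚ) * T (n + 2) / (T (n + 1) : ℚ) ^ 2 =
      256 * (4 * n + 3) * (4 * n + 5) ^ 2 * (4 * n + 7) * (2 * n + 3) ^ 2 /
        (27 * (3 * n + 2) * (3 * n + 4) ^ 3 * (3 * n + 5) ^ 2)) ∧
    T 1 = 4 ∧ T 2 = 224 :=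
  ⟨T_eq_closed, T_ratio, T_one, T_two⟩

end Pool.Agent.Results.MP_f6b435_co.ProductFormula
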